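import Mathlib
import Pool.Agent.Q167.VC.Stm

/-!
Project VC, job VOL, part A: the small root `s` of `s + 1/s = h`.
-/

open Finset Filter Topology

namespace Pool.Agent.Q58.VC

open Pool.Agent.Q167.VC

/-- The root of `s ^ 2 - h s + 1 = 0` used below. -/
noncomputable def SS (h : ℂ) : ℂ :=
  (h + Complex.I * ((2 - h) ^ (2⁻¹ : ℂ) * (2 + h) ^ (2⁻¹ : ℂ))) / 2

lemma sqr (x : ℂ) : (x ^ (2⁻¹ : ℂ)) ^ 2 = x := by
  have := Complex.cpow_nat_inv_pow x (n := 2) (by norm_num)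
  simp at this ⊢

lemma ss_quad (h : ℂ) : SS h ^ 2 - h * SS h + 1 = 0 := by
  have h1 := sqr (2 - h)
  have h2 := sqr (2 + h)
  have hI : Complex.I ^ 2 = -1 := Complex.I_sq
  set A := (2 - h) ^ (2⁻¹ : ℂ) with hA
  set B := (2 + h) ^ (2⁻¹ : ℂ) with hB
  have e : SS h = (h + Complex.I * (A * B)) / 2 := rfl
  rw [e]
  have : ((h + Complex.I * (A * B)) / 2) ^ 2 - h * ((h + Complex.I * (A * B)) / 2) + 1
      = (-h ^ 2 + Complex.I ^ 2 * (A ^ 2 * B ^ 2)) / 4 + 1 := by ring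
  rw [this, h1, h2, hI]
  ring

lemma ss_ne (h : ℂ) : SS h ≠ 0 := by
  intro h0
  have := ss_quad h
  rw [h0] at this
  norm_num at this

lemma ss_add (h : ℂ) : SS h + (SS h)⁻¹ = h := by
  have h1 := ss_ne h
  have h2 := ss_quad h
  field_simp
  linear_combination h2

lemma ss_diff {h : ℂ} (h1 : 2 - h ∈ Complex.slitPlane) (h2 : 2 + h ∈ Complex.slitPlane) :
    DifferentiableAt ℂ SS h := by
  unfold SS
  have a1 : DifferentiableAt ℂ (fun h : ℂ => (2 - h) ^ (2⁻¹ : ℂ)) h :=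
    DifferentiableAt.cpow_const (by fun_prop) h1
  have a2 : DifferentiableAt ℂ (fun h : ℂ => (2 + h) ^ (2⁻¹ : ℂ)) h :=
    DifferentiableAt.cpow_const (by fun_prop) h2
  fun_prop

/-- Real and imaginary parts of `cos (a - b i)`. -/
lemma cos_re_im (a b : ℝ) :
    Complex.cos ((a : ℂ) - b * Complex.I)
      = ((Real.cos a * Real.cosh b : ℝ) : ℂ) + ((Real.sin a * Real.sinh b : ℝ) : ℂ) * Complex.I := by
  have : (a : ℂ) - b * Complex.I = a + ((-b : ℝ) : ℂ) * Complex.I := by push_cast; ring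
  rw [this, Complex.cos_add_mul_I]
  push_cast
  rw [Complex.cosh_neg, Complex.sinh_neg]
  ring

lemma sin_re_im (a b : ℝ) :
    Complex.sin ((a : ℂ) - b * Complex.I)
      = ((Real.sin a * Real.cosh b : ℝ) : ℂ) - ((Real.cos a * Real.sinh b : ℝ) : ℂ) * Complex.I := by
  have : (a : ℂ) - b * Complex.I = a + ((-b : ℝ) : ℂ) * Complex.I := by push_cast; ring
  rw [this, Complex.sin_add_mul_I]
  push_cast
  rw [Complex.cosh_neg, Complex.sinh_neg]
  ring

lemma half_re (a b : ℝ) (ha : 0 < a) (ha' : a < Real.pi) :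
    0 < (Complex.cos (((a : ℂ) - b * Complex.I) / 2)).re ∧
    0 < (Complex.sin (((a : ℂ) - b * Complex.I) / 2)).re := by
  have e : ((a : ℂ) - b * Complex.I) / 2 = ((a / 2 : ℝ) : ℂ) - ((b / 2 : ℝ) : ℂ) * Complex.I := by
    push_cast; ring
  have hc : 0 < Real.cosh (b / 2) := Real.cosh_pos _
  have h1 : 0 < Real.cos (a / 2) := Real.cos_pos_of_mem_Ioo ⟨by linarith, by linarith⟩
  have h2 : 0 < Real.sin (a / 2) := Real.sin_pos_of_pos_of_lt_pi (by linarith) (by linarith)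
  rw [e, cos_re_im, sin_re_im]
  constructor
  · simp only [Complex.add_re, Complex.ofReal_re, Complex.mul_re, Complex.I_re, Complex.ofReal_im,
      Complex.I_im]
    have := mul_pos h1 hc
    linarith
  · simp only [Complex.sub_re, Complex.ofReal_re, Complex.mul_re, Complex.I_re, Complex.ofReal_im,
      Complex.I_im]
    have := mul_pos h2 hc
    linarith

lemma ss_eq (a b : ℝ) (ha : 0 < a) (ha' : a < Real.pi) :
    SS (-2 * Complex.cos ((a : ℂ) - b * Complex.I)) = -Complex.exp (-((b : ℂ) + a * Complex.I)) := by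
  obtain ⟨h1, h2⟩ := half_re a b ha ha'
  set d : ℂ := (a : ℂ) - b * Complex.I with hd
  have e1 : 2 - -2 * Complex.cos d = (2 * Complex.cos (d / 2)) ^ 2 := by
    have : Complex.cos d = 2 * Complex.cos (d / 2) ^ 2 - 1 := by
      rw [← Complex.cos_two_mul]; congr 1; ring
    rw [this]; ring
  have e2 : 2 + -2 * Complex.cos d = (2 * Complex.sin (d / 2)) ^ 2 := by
    have : Complex.cos d = 1 - 2 * Complex.sin (d / 2) ^ 2 := by
      have h3 : Complex.cos d = 2 * Complex.cos (d / 2) ^ 2 - 1 := by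
        rw [← Complex.cos_two_mul]; congr 1; ring
      rw [h3, Complex.cos_sq']; ring
    rw [this]; ring
  have e3 : ((2 * Complex.cos (d / 2)) ^ 2) ^ (2⁻¹ : ℂ) = 2 * Complex.cos (d / 2) := by
    apply Complex.sq_cpow_two_inv
    simp only [Complex.mul_re, Complex.re_ofNat, Complex.im_ofNat]
    linarith
  have e4 : ((2 * Complex.sin (d / 2)) ^ 2) ^ (2⁻¹ : ℂ) = 2 * Complex.sin (d / 2) := by
    apply Complex.sq_cpow_two_inv
    simp only [Complex.mul_re, Complex.re_ofNat, Complex.im_ofNat]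
    linarith
  unfold SS
  rw [e1, e2, e3, e4]
  have e5 : Complex.sin d = 2 * Complex.sin (d / 2) * Complex.cos (d / 2) := by
    rw [← Complex.sin_two_mul]; congr 1; ring
  have e6 : -((b : ℂ) + a * Complex.I) = (-d) * Complex.I := by
    rw [hd]; linear_combination (-b : ℂ) * Complex.I_mul_I
  rw [e6, Complex.exp_mul_I, Complex.cos_neg, Complex.sin_neg, e5]
  ring

lemma pp_mul (s : ℂ) (hs : s ≠ 0) : ∀ j : ℕ,
    PP (s + s⁻¹) j * (s ^ j * (s + 1)) = s ^ (2 * j + 1) + 1 ∧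
    PP (s + s⁻¹) (j + 1) * (s ^ (j + 1) * (s + 1)) = s ^ (2 * (j + 1) + 1) + 1 := by
  intro j
  induction j with
  | zero =>
    constructor
    · simp [PP]
    · simp only [PP]
      field_simp
      ring
  | succ j ih =>
    refine ⟨ih.2, ?_⟩
    have e : PP (s + s⁻¹) (j + 1 + 1) = (s + s⁻¹) * PP (s + s⁻¹) (j + 1) - PP (s + s⁻¹) j := rfl
    have h1 := ih.1
    have h2 := ih.2
    rw [e]
    have h3 : s * s⁻¹ = 1 := mul_inv_cancel₀ hs
    have : ((s + s⁻¹) * PP (s + s⁻¹) (j + 1) - PP (s + s⁻¹) j) * (s ^ (j + 1 + 1) * (s + 1))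
        = (s * s + s * s⁻¹) * (PP (s + s⁻¹) (j + 1) * (s ^ (j + 1) * (s + 1)))
          - s ^ 2 * (PP (s + s⁻¹) j * (s ^ j * (s + 1))) := by ring
    rw [this, h1, h2, h3]
    ring

/-- The eigenvalue equation in terms of `s`. -/
lemma root_eq {p : ℕ} (hp : 1 ≤ p) {h z : ℂ} (hr : PP h p = z * PP h (p - 1)) :
    z * (SS h ^ (2 * p) + SS h) = SS h ^ (2 * p + 1) + 1 := by
  obtain ⟨q, rfl⟩ : ∃ q, p = q + 1 := ⟨p - 1, by omega⟩
  have hs := ss_ne h
  obtain ⟨h1, h2⟩ := pp_mul (SS h) hs q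
  rw [ss_add] at h1 h2
  rw [Nat.add_sub_cancel] at hr
  rw [hr] at h2
  have h3 : z * PP h q * (SS h ^ (q + 1) * (SS h + 1))
      = z * SS h * (PP h q * (SS h ^ q * (SS h + 1))) := by ring
  rw [h3, h1] at h2
  rw [← h2]
  ring

/-- The angle function. -/
lemma al_eq (a b : ℝ) (ha : 0 < a) (ha' : a < Real.pi) :
    al (-2 * Complex.cos ((a : ℂ) - b * Complex.I)) = a := by
  have key : ∀ x y : ℝ, ‖Complex.cos ((x : ℂ) - y * Complex.I)‖ ^ 2
      = (Real.cos (2 * x) + Real.cosh (2 * y)) / 2 := by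
    intro x y
    rw [← Complex.normSq_eq_norm_sq, cos_re_im, Complex.normSq_add_mul_I]
    have e1 : Real.cos (2 * x) = 2 * Real.cos x ^ 2 - 1 := Real.cos_two_mul x
    have e2 : Real.cosh (2 * y) = Real.cosh y ^ 2 + Real.sinh y ^ 2 := Real.cosh_two_mul y
    have e3 : Real.cosh y ^ 2 = Real.sinh y ^ 2 + 1 := Real.cosh_sq y
    have e4 : Real.sin x ^ 2 = 1 - Real.cos x ^ 2 := Real.sin_sq x
    rw [e1, e2, mul_pow, mul_pow, e3, e4]
    ring
  have key2 : ∀ x y : ℝ, ‖Complex.sin ((x : ℂ) - y * Complex.I)‖ ^ 2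
      = (Real.cosh (2 * y) - Real.cos (2 * x)) / 2 := by
    intro x y
    rw [← Complex.normSq_eq_norm_sq, sin_re_im]
    have e0 : (((Real.sin x * Real.cosh y : ℝ) : ℂ)) - ((Real.cos x * Real.sinh y : ℝ) : ℂ) * Complex.I
        = ((Real.sin x * Real.cosh y : ℝ) : ℂ) + ((-(Real.cos x * Real.sinh y) : ℝ) : ℂ) * Complex.I := by
      push_cast; ring
    rw [e0, Complex.normSq_add_mul_I]
    have e1 : Real.cos (2 * x) = 2 * Real.cos x ^ 2 - 1 := Real.cos_two_mul x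
    have e2 : Real.cosh (2 * y) = Real.cosh y ^ 2 + Real.sinh y ^ 2 := Real.cosh_two_mul y
    have e3 : Real.cosh y ^ 2 = Real.sinh y ^ 2 + 1 := Real.cosh_sq y
    have e4 : Real.sin x ^ 2 = 1 - Real.cos x ^ 2 := Real.sin_sq x
    rw [e1, e2, mul_pow, neg_sq, mul_pow, e3, e4]
    ring
  set d : ℂ := (a : ℂ) - b * Complex.I with hd
  have ed : d / 2 = ((a / 2 : ℝ) : ℂ) - ((b / 2 : ℝ) : ℂ) * Complex.I := by
    rw [hd]; push_cast; ring
  have h3 : Complex.cos d = 2 * Complex.cos (d / 2) ^ 2 - 1 := by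
    rw [← Complex.cos_two_mul]; congr 1; ring
  have e1 : -2 * Complex.cos d - 2 = -(4 * Complex.cos (d / 2) ^ 2) := by rw [h3]; ring
  have e2 : -2 * Complex.cos d + 2 = 4 * Complex.sin (d / 2) ^ 2 := by
    rw [h3, Complex.cos_sq']; ring
  unfold al
  rw [e1, e2, norm_neg, norm_mul, norm_mul, norm_pow, norm_pow, ed, key, key2]
  have : (‖(4 : ℂ)‖ * ((Real.cos (2 * (a / 2)) + Real.cosh (2 * (b / 2))) / 2)
      - ‖(4 : ℂ)‖ * ((Real.cosh (2 * (b / 2)) - Real.cos (2 * (a / 2))) / 2)) / 4 = Real.cos a := by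
    have h4 : ‖(4 : ℂ)‖ = 4 := by norm_num
    rw [h4]
    have : 2 * (a / 2) = a := by ring
    rw [this]
    ring
  rw [this, Real.arccos_cos ha.le ha'.le]

end Pool.Agent.Q58.VC
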