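import Mathlib
import Pool.Agent.Q58.VC.VolA

/-!
Project VC, job VOL, part B: geometric facts on the interval and the derivative of `U`.
-/

open Finset Filter Topology

namespace Pool.Agent.Q58.VC

open Pool.Agent.Q167.VC

lemma strip_facts (h0 : S_par) {p : ℕ} (hp : 2 ≤ p) {H : Fin p → ℝ → ℂ} (hF : Fam p H)
    {m₀ : Fin p} (hm : (m₀ : ℕ) = 0) {ψ : ℝ} (hψ : ψ ∈ Set.Ioo (-(Real.pi / 2)) 0) :
    ∃ a b : ℝ, 0 < a ∧ a ≤ Real.pi / 2 ∧ 0 < b ∧
      H m₀ ψ = -2 * Complex.cos ((a : ℂ) - b * Complex.I) := by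
  have hpi := Real.pi_pos
  have hI : ψ ∈ Set.Icc (-(Real.pi / 2)) 0 := ⟨hψ.1.le, hψ.2.le⟩
  obtain ⟨a, b, ha, ha', hb, hh, hE⟩ := h0 p (by omega) ψ hψ.1.le hψ.2 _ (hF.root ψ hI m₀)
  refine ⟨a, b, ha, ?_, hb, hh⟩
  have hs := hF.strip ψ hI m₀
  rw [hh, al_eq a b ha ha', hm] at hs
  have hp0 : (0 : ℝ) < p := by positivity
  have hp2 : (2 : ℝ) ≤ p := by exact_mod_cast hp
  have hs' := abs_lt.mp hs
  have e1 : ((0 : ℕ) : ℝ) + 1 = 1 := by norm_num
  rw [e1, one_mul] at hs'
  -- the sign of `sin (2 p a)`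
  have hE1 := hE.1
  have h1 : 0 < Real.sinh (2 * p * b) * Real.sinh b := by
    apply mul_pos <;> rw [Real.sinh_pos_iff] <;> positivity
  have h2 : 0 < Real.sin a := Real.sin_pos_of_pos_of_lt_pi ha ha'
  have h3 : Real.sin (2 * p * a) < 0 := by
    by_contra hcon
    push Not at hcon
    have := mul_nonneg hcon h2.le
    linarith
  by_contra hcon
  push Not at hcon
  have ha1 : Real.pi / p < a := by
    have : Real.pi / p ≤ Real.pi / 2 := by
      apply div_le_div_of_nonneg_left hpi.le (by norm_num) hp2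
    linarith
  have ha2 : a < 3 * Real.pi / (2 * p) := by
    have : Real.pi / p + Real.pi / (2 * p) = 3 * Real.pi / (2 * p) := by field_simp; ring
    linarith [hs'.2]
  have h4 : 0 ≤ Real.sin (2 * p * a - 2 * Real.pi) := by
    apply Real.sin_nonneg_of_nonneg_of_le_pi
    · have : Real.pi < a * p := by rwa [div_lt_iff₀ hp0] at ha1
      nlinarith
    · have : a * (2 * p) < 3 * Real.pi := by rwa [lt_div_iff₀ (by positivity)] at ha2
      nlinarith
  rw [Real.sin_sub_two_pi] at h4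
  linarith

lemma exp_facts {ψ a b : ℝ} (hψ : ψ ∈ Set.Ioo (-(Real.pi / 2)) 0) (ha : 0 < a)
    (ha' : a ≤ Real.pi / 2) {z s : ℂ} (hz : z = Complex.exp (ψ * Complex.I))
    (hs : s = -Complex.exp (-((b : ℂ) + a * Complex.I))) :
    z ≠ 0 ∧ s ≠ 0 ∧ 1 - z ∈ Complex.slitPlane ∧ 1 - z * s ∈ Complex.slitPlane ∧
      1 - z / s ∈ Complex.slitPlane := by
  have hpi := Real.pi_pos
  have hz0 : z ≠ 0 := by rw [hz]; exact Complex.exp_ne_zero _
  have hs0 : s ≠ 0 := by rw [hs]; exact neg_ne_zero.mpr (Complex.exp_ne_zero _)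
  refine ⟨hz0, hs0, ?_, ?_, ?_⟩
  · rw [Complex.mem_slitPlane_iff]
    right
    rw [hz, Complex.sub_im, Complex.exp_ofReal_mul_I_im, Complex.one_im]
    have := Real.sin_neg_of_neg_of_neg_pi_lt hψ.2 (by linarith [hψ.1])
    linarith
  · rw [Complex.mem_slitPlane_iff]
    right
    have e : z * s = -(((Real.exp (-b) : ℝ) : ℂ) * Complex.exp (((ψ - a : ℝ) : ℂ) * Complex.I)) := by
      rw [hz, hs, Complex.ofReal_exp, ← Complex.exp_add, mul_neg, ← Complex.exp_add]
      congr 2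
      push_cast; ring
    rw [e, Complex.sub_im, Complex.neg_im, Complex.im_ofReal_mul, Complex.exp_ofReal_mul_I_im,
      Complex.one_im]
    have h1 : Real.sin (ψ - a) < 0 :=
      Real.sin_neg_of_neg_of_neg_pi_lt (by linarith [hψ.2]) (by linarith [hψ.1])
    have h2 := Real.exp_pos (-b)
    have := mul_neg_of_pos_of_neg h2 h1
    linarith
  · rw [Complex.mem_slitPlane_iff]
    left
    have e : z / s = -(((Real.exp b : ℝ) : ℂ) * Complex.exp (((ψ + a : ℝ) : ℂ) * Complex.I)) := by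
      rw [hz, hs, Complex.ofReal_exp, ← Complex.exp_add, div_neg, ← Complex.exp_sub]
      congr 2
      push_cast; ring
    rw [e, Complex.sub_re, Complex.neg_re, Complex.re_ofReal_mul, Complex.exp_ofReal_mul_I_re]
    have h1 : 0 < Real.cos (ψ + a) := Real.cos_pos_of_mem_Ioo ⟨by linarith [hψ.1], by linarith [hψ.2]⟩
    have h2 := Real.exp_pos b
    have := mul_pos h2 h1
    rw [Complex.one_re]
    linarith

/-- Facts about the point of the path over `ψ`. -/
lemma point_facts (h0 : S_par) {p : ℕ} (hp : 2 ≤ p) {H : Fin p → ℝ → ℂ} (hF : Fam p H)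
    {m₀ : Fin p} (hm : (m₀ : ℕ) = 0) {ψ : ℝ} (hψ : ψ ∈ Set.Ioo (-(Real.pi / 2)) 0) :
    2 - H m₀ ψ ∈ Complex.slitPlane ∧ 2 + H m₀ ψ ∈ Complex.slitPlane ∧
    1 - Complex.exp (ψ * Complex.I) ∈ Complex.slitPlane ∧
    1 - Complex.exp (ψ * Complex.I) * SS (H m₀ ψ) ∈ Complex.slitPlane ∧
    1 - Complex.exp (ψ * Complex.I) / SS (H m₀ ψ) ∈ Complex.slitPlane ∧
    ‖SS (H m₀ ψ)‖ < 1 := by
  obtain ⟨a, b, ha, ha', hb, hh⟩ := strip_facts h0 hp hF hm hψ
  have hpi := Real.pi_pos
  have hS := ss_eq a b ha (by linarith)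
  rw [← hh] at hS
  obtain ⟨f1, f2, f3, f4, f5⟩ := exp_facts hψ ha ha' rfl hS
  have him : (H m₀ ψ).im < 0 := by
    rw [hh, cos_re_im]
    have h1 : 0 < Real.sin a := Real.sin_pos_of_pos_of_lt_pi ha (by linarith)
    have h2 : 0 < Real.sinh b := Real.sinh_pos_iff.mpr hb
    have h3 := mul_pos h1 h2
    have key : ∀ A B : ℝ, (-2 * ((A : ℂ) + (B : ℂ) * Complex.I)).im = -2 * B := by
      intro A B
      simp [Complex.mul_im]
    rw [key]
    linarith
  refine ⟨?_, ?_, f3, f4, f5, ?_⟩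
  · rw [Complex.mem_slitPlane_iff]
    right
    simp only [Complex.sub_im, Complex.im_ofNat]
    linarith
  · rw [Complex.mem_slitPlane_iff]
    right
    simp only [Complex.add_im, Complex.im_ofNat]
    linarith
  · rw [hS, norm_neg, Complex.norm_exp]
    have : (-((b : ℂ) + a * Complex.I)).re = -b := by simp
    rw [this]
    rw [Real.exp_lt_one_iff]
    linarith

/-- The function `U`. -/
noncomputable def UU (g : ℝ → ℂ) (ψ : ℝ) : ℝ :=
  2 * BW (Complex.exp (ψ * Complex.I)) - BW (Complex.exp (ψ * Complex.I) * g ψ)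
    - BW (Complex.exp (ψ * Complex.I) / g ψ)

/-- The derivative of `U` for an abstract path. -/
lemma UU_deriv (h2 : S_bwd) {q : ℕ} {g : ℝ → ℂ} {g' : ℂ} {ψ : ℝ} (hg : HasDerivAt g g' ψ)
    (hg0 : g ψ ≠ 0)
    (f1 : 1 - Complex.exp (ψ * Complex.I) ∈ Complex.slitPlane)
    (f2 : 1 - Complex.exp (ψ * Complex.I) * g ψ ∈ Complex.slitPlane)
    (f3 : 1 - Complex.exp (ψ * Complex.I) / g ψ ∈ Complex.slitPlane)
    (hrel : ∀ᶠ u : ℝ in 𝓝 ψ, 1 - Complex.exp (u * Complex.I) * g u
      = -(g u) ^ q * (1 - Complex.exp (u * Complex.I) / g u)) :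
    HasDerivAt (UU g)
      (Real.log (‖1 - Complex.exp (ψ * Complex.I) * g ψ‖ * ‖1 - Complex.exp (ψ * Complex.I) / g ψ‖)
        - 2 * Real.log ‖1 - Complex.exp (ψ * Complex.I)‖) ψ := by
  set z : ℂ := Complex.exp (ψ * Complex.I) with hz
  have hz0 : z ≠ 0 := Complex.exp_ne_zero _
  have hzd : HasDerivAt (fun u : ℝ => Complex.exp (u * Complex.I)) (z * Complex.I) ψ := by
    have h1 : HasDerivAt (fun u : ℝ => (u : ℂ) * Complex.I) (1 * Complex.I) ψ :=
      (Complex.ofRealCLM.hasDerivAt (x := ψ)).mul_const Complex.I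
    have h3 := h1.cexp
    rw [one_mul] at h3
    exact h3
  have hnz : ‖z‖ = 1 := Complex.norm_exp_ofReal_mul_I ψ
  set s : ℂ := g ψ with hs
  -- the three paths
  have d1 := h2 _ _ ψ hzd (by rw [← hz]; exact hz0) f1
  have p2 : HasDerivAt (fun u : ℝ => Complex.exp (u * Complex.I) * g u)
      (z * Complex.I * s + z * g') ψ := hzd.mul hg
  have p3 : HasDerivAt (fun u : ℝ => Complex.exp (u * Complex.I) / g u)
      ((z * Complex.I * s - z * g') / s ^ 2) ψ := hzd.div hg hg0
  have d2 := h2 _ _ ψ p2 (by simp only [← hz, ← hs]; exact mul_ne_zero hz0 hg0) f2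
  have d3 := h2 _ _ ψ p3 (by simp only [← hz, ← hs]; exact div_ne_zero hz0 hg0) f3
  have hd := (d1.const_mul 2 |>.sub d2).sub d3
  have n1 : 1 - z ≠ 0 := Complex.slitPlane_ne_zero f1
  have n2 : 1 - z * s ≠ 0 := Complex.slitPlane_ne_zero f2
  have n3 : 1 - z / s ≠ 0 := Complex.slitPlane_ne_zero f3
  -- the relation and its derivative
  have r0 : 1 - z * s = -s ^ q * (1 - z / s) := hrel.self_of_nhds
  have r1 : HasDerivAt (fun u : ℝ => 1 - Complex.exp (u * Complex.I) * g u)
      (-(z * Complex.I * s + z * g')) ψ := by simpa using p2.const_sub 1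
  have r2 : HasDerivAt (fun u : ℝ => -(g u) ^ q * (1 - Complex.exp (u * Complex.I) / g u))
      (-(q * s ^ (q - 1) * g') * (1 - z / s) + -s ^ q * (-((z * Complex.I * s - z * g') / s ^ 2)))
      ψ := by
    have a1 := (hg.pow q).neg
    have a2 := p3.const_sub 1
    exact a1.mul a2
  have r3 := (r1.congr_of_eventuallyEq (hrel.mono fun u hu => hu.symm)).unique r2
  -- the quotient relation
  have hq : -(z * Complex.I * s + z * g') / (1 - z * s)
      = q * (g' / s) + -((z * Complex.I * s - z * g') / s ^ 2) / (1 - z / s) := by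
    rw [r3, r0]
    have hsq : s ^ q ≠ 0 := pow_ne_zero _ hg0
    generalize 1 - z / s = W at n3
    generalize (z * Complex.I * s - z * g') / s ^ 2 = Y
    rcases Nat.eq_zero_or_pos q with hq0 | hq0
    · subst hq0
      simp only [pow_zero, Nat.cast_zero, zero_mul]
      field_simp
      ring
    · have : s ^ q = s ^ (q - 1) * s := by
        rw [← pow_succ]; congr 1; omega
      have hs1 : s ^ (q - 1) ≠ 0 := pow_ne_zero _ hg0
      rw [this]
      field_simp
      ring
  have hlog : Real.log ‖1 - z * s‖ = q * Real.log ‖s‖ + Real.log ‖1 - z / s‖ := by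
    rw [r0, norm_mul, norm_neg, norm_pow, Real.log_mul (by positivity) (by positivity), Real.log_pow]
  refine HasDerivAt.congr_deriv (f := UU g) hd ?_
  rw [← hz, ← hs]
  have e1 : (z * Complex.I / z).im = 1 := by
    rw [mul_div_cancel_left₀ _ hz0]; exact Complex.I_im
  have e2 : ((z * Complex.I * s + z * g') / (z * s)).im = 1 + (g' / s).im := by
    have : (z * Complex.I * s + z * g') / (z * s) = Complex.I + g' / s := by field_simp
    rw [this, Complex.add_im, Complex.I_im]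
  have e3 : (((z * Complex.I * s - z * g') / s ^ 2) / (z / s)).im = 1 - (g' / s).im := by
    have : ((z * Complex.I * s - z * g') / s ^ 2) / (z / s) = Complex.I - g' / s := by
      field_simp
    rw [this, Complex.sub_im, Complex.I_im]
  have e4 : (-(z * Complex.I * s + z * g') / (1 - z * s)).im
      = q * (g' / s).im + (-((z * Complex.I * s - z * g') / s ^ 2) / (1 - z / s)).im := by
    rw [hq, Complex.add_im]
    congr 1
    rw [← Complex.ofReal_natCast, Complex.im_ofReal_mul]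
  have e5 : ‖z * s‖ = ‖s‖ := by rw [norm_mul, hnz, one_mul]
  have e6 : Real.log ‖z / s‖ = -Real.log ‖s‖ := by
    rw [norm_div, hnz, one_div, Real.log_inv]
  rw [e1, e2, e3, e4, e5, e6, hnz, Real.log_one, Real.log_mul (by positivity) (by positivity), hlog]
  ring

end Pool.Agent.Q58.VC
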