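import Mathlib
import Pool.Agent.Q58.VC.VolB

/-!
Project VC, job VOL, part C: the boundary at `0`.
-/

open Finset Filter Topology

namespace Pool.Agent.Q58.VC

open Pool.Agent.Q167.VC

/-- `BW` is locally Lipschitz. -/
lemma bw_lip (h2 : S_bwd) {w₀ : ℂ} (hw : w₀ ≠ 0) (hw1 : 1 - w₀ ∈ Complex.slitPlane) :
    ∃ r > 0, ∃ M : ℝ, ∀ w ∈ Metric.ball w₀ r, ∀ w' ∈ Metric.ball w₀ r,
      |BW w - BW w'| ≤ M * ‖w - w'‖ := by
  have hne : 1 - w₀ ≠ 0 := Complex.slitPlane_ne_zero hw1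
  let F : ℂ → ℝ := fun w => |Real.log ‖w‖| * ‖(1 - w)⁻¹‖ + |Real.log ‖1 - w‖| * ‖w⁻¹‖
  have hF : ContinuousAt F w₀ := by
    have a1 : ContinuousAt (fun w : ℂ => Real.log ‖w‖) w₀ :=
      ContinuousAt.log continuous_norm.continuousAt (norm_ne_zero_iff.mpr hw)
    have a2 : ContinuousAt (fun w : ℂ => Real.log ‖1 - w‖) w₀ :=
      ContinuousAt.log (by fun_prop) (norm_ne_zero_iff.mpr hne)
    have a3 : ContinuousAt (fun w : ℂ => (1 - w)⁻¹) w₀ :=
      ContinuousAt.inv₀ (by fun_prop) hne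
    have a4 : ContinuousAt (fun w : ℂ => w⁻¹) w₀ := ContinuousAt.inv₀ continuousAt_id hw
    exact (a1.abs.mul a3.norm).add (a2.abs.mul a4.norm)
  have e1 : ∀ᶠ w in 𝓝 w₀, F w < F w₀ + 1 := hF.eventually_lt_const (by linarith)
  have e2 : ∀ᶠ w in 𝓝 w₀, w ≠ 0 := eventually_ne_nhds hw
  have e3 : ∀ᶠ w in 𝓝 w₀, 1 - w ∈ Complex.slitPlane := by
    have : ContinuousAt (fun w : ℂ => 1 - w) w₀ := by fun_prop
    exact this.eventually_mem (Complex.isOpen_slitPlane.mem_nhds hw1)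
  obtain ⟨r, hr, hball⟩ := Metric.eventually_nhds_iff_ball.mp (e1.and (e2.and e3))
  refine ⟨r, hr, F w₀ + 1, ?_⟩
  intro w hwb w' hwb'
  let g : ℝ → ℂ := fun t => w' + t * (w - w')
  have hg : ∀ t, HasDerivAt g (w - w') t := by
    intro t
    have h1 : HasDerivAt (fun u : ℝ => (u : ℂ) * (w - w')) (1 * (w - w')) t :=
      (Complex.ofRealCLM.hasDerivAt (x := t)).mul_const (w - w')
    rw [one_mul] at h1
    exact h1.const_add w'
  have hin : ∀ t ∈ Set.Icc (0 : ℝ) 1, g t ∈ Metric.ball w₀ r := by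
    intro t ht
    have := (convex_ball w₀ r).add_smul_sub_mem hwb' hwb ht
    simpa [g] using this
  have hder : ∀ t ∈ Set.Icc (0 : ℝ) 1, HasDerivWithinAt (fun v => BW (g v))
      (Real.log ‖g t‖ * (-(w - w') / (1 - g t)).im - Real.log ‖1 - g t‖ * ((w - w') / g t).im)
      (Set.Icc 0 1) t := by
    intro t ht
    have hb := hball _ (hin t ht)
    exact (h2 g (w - w') t (hg t) hb.2.1 hb.2.2).hasDerivWithinAt
  have hbd : ∀ t ∈ Set.Ico (0 : ℝ) 1,
      ‖Real.log ‖g t‖ * (-(w - w') / (1 - g t)).im - Real.log ‖1 - g t‖ * ((w - w') / g t).im‖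
        ≤ (F w₀ + 1) * ‖w - w'‖ := by
    intro t ht
    have hb := hball _ (hin t ⟨ht.1, ht.2.le⟩)
    have b1 : |(-(w - w') / (1 - g t)).im| ≤ ‖w - w'‖ * ‖(1 - g t)⁻¹‖ := by
      refine (Complex.abs_im_le_norm _).trans ?_
      rw [div_eq_mul_inv, norm_mul, norm_neg]
    have b2 : |((w - w') / g t).im| ≤ ‖w - w'‖ * ‖(g t)⁻¹‖ := by
      refine (Complex.abs_im_le_norm _).trans ?_
      rw [div_eq_mul_inv, norm_mul]
    rw [Real.norm_eq_abs]
    calc |Real.log ‖g t‖ * (-(w - w') / (1 - g t)).im - Real.log ‖1 - g t‖ * ((w - w') / g t).im|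
        ≤ |Real.log ‖g t‖ * (-(w - w') / (1 - g t)).im| + |Real.log ‖1 - g t‖ * ((w - w') / g t).im| :=
          abs_sub _ _
      _ ≤ |Real.log ‖g t‖| * (‖w - w'‖ * ‖(1 - g t)⁻¹‖)
          + |Real.log ‖1 - g t‖| * (‖w - w'‖ * ‖(g t)⁻¹‖) := by
          rw [abs_mul, abs_mul]
          gcongr
      _ = F (g t) * ‖w - w'‖ := by simp only [F]; ring
      _ ≤ (F w₀ + 1) * ‖w - w'‖ := by
          gcongr
          exact hb.1.le
  have := norm_image_sub_le_of_norm_deriv_le_segment' hder hbd 1 ⟨by norm_num, le_refl 1⟩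
  have g1 : g 1 = w := by simp [g]
  have g0 : g 0 = w' := by simp [g]
  simp only [g1, g0] at this
  rw [Real.norm_eq_abs] at this
  linarith

lemma bw_sub_tendsto (h2 : S_bwd) {w₀ : ℂ} (hw : w₀ ≠ 0) (hw1 : 1 - w₀ ∈ Complex.slitPlane)
    {l : Filter ℝ} {u v : ℝ → ℂ} (hu : Tendsto u l (𝓝 w₀)) (hv : Tendsto v l (𝓝 w₀)) :
    Tendsto (fun ψ => BW (u ψ) - BW (v ψ)) l (𝓝 0) := by
  obtain ⟨r, hr, M, hM⟩ := bw_lip h2 hw hw1
  have e1 : ∀ᶠ ψ in l, u ψ ∈ Metric.ball w₀ r := hu.eventually_mem (Metric.ball_mem_nhds _ hr)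
  have e2 : ∀ᶠ ψ in l, v ψ ∈ Metric.ball w₀ r := hv.eventually_mem (Metric.ball_mem_nhds _ hr)
  have e3 : Tendsto (fun ψ => M * ‖u ψ - v ψ‖) l (𝓝 0) := by
    have := (hu.sub hv).norm.const_mul M
    simpa using this
  apply squeeze_zero_norm' _ e3
  filter_upwards [e1, e2] with ψ h1 h3
  exact hM _ h1 _ h3

/-- The end point at `0`. -/
lemma end_facts {p : ℕ} (hp : 2 ≤ p) {H : Fin p → ℝ → ℂ} (hF : Fam p H)
    {m₀ : Fin p} (hm : (m₀ : ℕ) = 0) :
    2 - H m₀ 0 ∈ Complex.slitPlane ∧ 2 + H m₀ 0 ∈ Complex.slitPlane ∧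
    ‖SS (H m₀ 0)‖ = 1 ∧ 1 - SS (H m₀ 0) ∈ Complex.slitPlane := by
  have hpi := Real.pi_pos
  have hI : (0 : ℝ) ∈ Set.Icc (-(Real.pi / 2)) 0 := ⟨by linarith, le_refl 0⟩
  have hr := hF.root 0 hI m₀
  have hst := hF.strip 0 hI m₀
  have hz : Complex.exp (((0 : ℝ) : ℂ) * Complex.I) = 1 := by simp
  rw [hz] at hr
  have hre := root_eq (by omega) hr
  set h := H m₀ 0 with hh
  set s := SS h with hs
  have hs0 : s ≠ 0 := ss_ne h
  have hadd : s + s⁻¹ = h := ss_add h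
  have hn : ‖s‖ = 1 := by
    have h1 : (s ^ (2 * p) - 1) * (1 - s) = 0 := by
      linear_combination hre
    rcases mul_eq_zero.mp h1 with h3 | h3
    · have : ‖s‖ ^ (2 * p) = 1 := by
        rw [← norm_pow, sub_eq_zero.mp h3, norm_one]
      exact (pow_eq_one_iff_of_nonneg (norm_nonneg _) (by omega)).mp this
    · rw [← sub_eq_zero.mp h3, norm_one]
  have hinv : s⁻¹ = (starRingEnd ℂ) s := by
    rw [Complex.inv_def, Complex.normSq_eq_norm_sq, hn]
    simp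
  have hreal : h = ((2 * s.re : ℝ) : ℂ) := by
    rw [← hadd, hinv, Complex.add_conj]
  have hs1 : |s.re| ≤ 1 := by rw [← hn]; exact Complex.abs_re_le_norm s
  have hs1' := abs_le.mp hs1
  have hal : al h = Real.arccos (-s.re) := by
    unfold al
    rw [hreal]
    have e1 : ‖((2 * s.re : ℝ) : ℂ) - 2‖ = 2 - 2 * s.re := by
      have : ((2 * s.re : ℝ) : ℂ) - 2 = ((-(2 - 2 * s.re) : ℝ) : ℂ) := by push_cast; ring
      rw [this, Complex.norm_real, Real.norm_eq_abs, abs_neg, abs_of_nonneg (by linarith)]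
    have e2 : ‖((2 * s.re : ℝ) : ℂ) + 2‖ = 2 * s.re + 2 := by
      have : ((2 * s.re : ℝ) : ℂ) + 2 = ((2 * s.re + 2 : ℝ) : ℂ) := by push_cast; ring
      rw [this, Complex.norm_real, Real.norm_eq_abs, abs_of_nonneg (by linarith)]
    rw [e1, e2]
    congr 1
    ring
  rw [hal, hm] at hst
  have hp0 : (0 : ℝ) < p := by positivity
  have hp2 : (2 : ℝ) ≤ p := by exact_mod_cast hp
  have hst' := abs_lt.mp hst
  have e1 : ((0 : ℕ) : ℝ) + 1 = 1 := by norm_num
  rw [e1, one_mul] at hst'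
  have b1 : 0 < Real.arccos (-s.re) := by
    have : Real.pi / p - Real.pi / (2 * p) = Real.pi / (2 * p) := by field_simp; ring
    have : 0 < Real.pi / (2 * p) := by positivity
    linarith [hst'.1]
  have b2 : Real.arccos (-s.re) < Real.pi := by
    have h3 : Real.pi / p + Real.pi / (2 * p) = 3 * Real.pi / (2 * p) := by field_simp; ring
    have h4 : 3 * Real.pi / (2 * p) < Real.pi := by
      rw [div_lt_iff₀ (by positivity)]
      nlinarith
    linarith [hst'.2]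
  have c1 : -s.re < 1 := Real.arccos_pos.mp b1
  have c2 : -1 < -s.re := by
    by_contra hcon
    push Not at hcon
    rw [Real.arccos_of_le_neg_one hcon] at b2
    linarith
  refine ⟨?_, ?_, hn, ?_⟩
  · rw [Complex.mem_slitPlane_iff]
    left
    rw [hreal, Complex.sub_re, Complex.ofReal_re, Complex.re_ofNat]
    linarith
  · rw [Complex.mem_slitPlane_iff]
    left
    rw [hreal, Complex.add_re, Complex.ofReal_re, Complex.re_ofNat]
    linarith
  · rw [Complex.mem_slitPlane_iff]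
    left
    rw [Complex.sub_re, Complex.one_re]
    linarith

end Pool.Agent.Q58.VC
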