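import Mathlib
import Pool.Agent.Q58.VC.VolC

/-!
Project VC, job VOL: the exponent as a volume.
-/

open Finset Filter Topology

namespace Pool.Agent.Q58.VC

open Pool.Agent.Q167.VC

lemma split_eq {p : ℕ} (hp : 1 ≤ p) {h z : ℂ} (hr : PP h p = z * PP h (p - 1)) :
    1 - z * SS h = -(SS h) ^ (2 * p + 1) * (1 - z / SS h) := by
  have h1 := root_eq hp hr
  have hs := ss_ne h
  have h2 : SS h ^ (2 * p + 1) * (z / SS h) = SS h ^ (2 * p) * z := by
    rw [pow_succ]; field_simp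
  linear_combination -h1 - h2

lemma prod_norm (ψ : ℝ) (h : ℂ) :
    ‖1 - Complex.exp (ψ * Complex.I) * SS h‖ * ‖1 - Complex.exp (ψ * Complex.I) / SS h‖
      = ‖(2 * Real.cos ψ : ℂ) - h‖ := by
  have hs := ss_ne h
  have hadd := ss_add h
  set z : ℂ := Complex.exp (ψ * Complex.I) with hz
  have hz0 : z ≠ 0 := Complex.exp_ne_zero _
  have hn : ‖z‖ = 1 := Complex.norm_exp_ofReal_mul_I ψ
  have hc : (2 * Real.cos ψ : ℂ) = z + z⁻¹ := by
    rw [hz, ← Complex.exp_neg, Complex.ofReal_cos, Complex.two_cos]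
    congr 2
    ring
  rw [← norm_mul]
  have e : (1 - z * SS h) * (1 - z / SS h) = z * ((2 * Real.cos ψ : ℂ) - h) := by
    rw [hc]
    have h1 : z * z⁻¹ = 1 := mul_inv_cancel₀ hz0
    have h2 : SS h * (SS h)⁻¹ = 1 := mul_inv_cancel₀ hs
    have h3 : (1 - z * SS h) * (1 - z / SS h)
        = 1 - z * (SS h + (SS h)⁻¹) + z * z * (SS h * (SS h)⁻¹) := by
      rw [div_eq_mul_inv]; ring
    rw [h3, h2, hadd]
    linear_combination -h1
  rw [e, norm_mul, hn, one_mul]

lemma norm_one_sub_sq (ψ : ℝ) : ‖1 - Complex.exp (ψ * Complex.I)‖ ^ 2 = 2 - 2 * Real.cos ψ := by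
  rw [← Complex.normSq_eq_norm_sq, Complex.normSq_apply, Complex.sub_re, Complex.sub_im,
    Complex.exp_ofReal_mul_I_re, Complex.exp_ofReal_mul_I_im, Complex.one_re, Complex.one_im]
  have := Real.sin_sq_add_cos_sq ψ
  linear_combination this

theorem vol (h0 : S_par) (h1 : S_diff) (h2 : S_bwd) (h3 : S_bwl) : S_vol := by
  intro p hp H hF m₀ hm φ hφ α b hα hα' hb hH z s hz hs
  have hpi := Real.pi_pos
  let g : ℝ → ℂ := fun ψ => SS (H m₀ ψ)
  have hsub : ∀ ψ ∈ Set.Ioo (-(Real.pi / 2)) (0 : ℝ),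
      HasDerivAt (UU g)
        (Real.log ‖(2 * Real.cos ψ : ℂ) - H m₀ ψ‖ - Real.log (2 - 2 * Real.cos ψ)) ψ := by
    intro ψ hψ
    obtain ⟨q1, q2, q3, q4, q5, q6⟩ := point_facts h0 hp hF hm hψ
    have hd := (h1 p hp H hF ψ hψ m₀).2
    have hgd : ∃ g', HasDerivAt g g' ψ := by
      refine ⟨_, ((ss_diff q1 q2).hasDerivAt).comp_of_eq ψ hd rfl⟩
    obtain ⟨g', hg'⟩ := hgd
    have hrel : ∀ᶠ u : ℝ in 𝓝 ψ, 1 - Complex.exp (u * Complex.I) * g u
        = -(g u) ^ (2 * p + 1) * (1 - Complex.exp (u * Complex.I) / g u) := by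
      filter_upwards [Ioo_mem_nhds hψ.1 hψ.2] with u hu
      exact split_eq (by omega) (hF.root u ⟨hu.1.le, hu.2.le⟩ m₀)
    have hU := UU_deriv h2 hg' (ss_ne _) q3 q4 q5 hrel
    refine hU.congr_deriv ?_
    have e1 : 2 * Real.log ‖1 - Complex.exp (ψ * Complex.I)‖ = Real.log (2 - 2 * Real.cos ψ) := by
      rw [← norm_one_sub_sq, Real.log_pow]
      norm_num
    rw [e1, prod_norm]
  obtain ⟨r1, r2, r3, r4⟩ := end_facts hp hF hm
  have hc := hF.cont m₀
  -- integrability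
  have hint : IntervalIntegrable (fun ψ : ℝ =>
      Real.log ‖(2 * Real.cos ψ : ℂ) - H m₀ ψ‖ - Real.log (2 - 2 * Real.cos ψ))
      MeasureTheory.volume φ 0 := by
    apply IntervalIntegrable.sub
    · apply ContinuousOn.intervalIntegrable
      rw [Set.uIcc_of_le hφ.2.le]
      have hcs : ContinuousOn (H m₀) (Set.Icc φ 0) :=
        hc.mono (Set.Icc_subset_Icc_left hφ.1.le)
      have hcc : ContinuousOn (fun ψ : ℝ => ‖(2 * Real.cos ψ : ℂ) - H m₀ ψ‖) (Set.Icc φ 0) := by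
        apply ContinuousOn.norm
        apply ContinuousOn.sub _ hcs
        fun_prop
      apply ContinuousOn.log hcc
      intro ψ hψ
      rw [norm_ne_zero_iff]
      rcases eq_or_lt_of_le hψ.2 with h | h
      · subst h
        have := Complex.slitPlane_ne_zero r1
        simpa using this
      · obtain ⟨q1, q2, q3, q4, q5, q6⟩ :=
          point_facts h0 hp hF hm (ψ := ψ) ⟨lt_of_lt_of_le hφ.1 hψ.1, h⟩
        have n1 := Complex.slitPlane_ne_zero q4
        have n2 := Complex.slitPlane_ne_zero q5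
        have := prod_norm ψ (H m₀ ψ)
        intro h0'
        rw [h0', norm_zero] at this
        have h4 : ‖1 - Complex.exp (ψ * Complex.I) * SS (H m₀ ψ)‖ ≠ 0 := norm_ne_zero_iff.mpr n1
        have h5 : ‖1 - Complex.exp (ψ * Complex.I) / SS (H m₀ ψ)‖ ≠ 0 := norm_ne_zero_iff.mpr n2
        exact (mul_ne_zero h4 h5) this
    · have hA : AnalyticOnNhd ℝ (fun ψ : ℝ => 2 - 2 * Real.cos ψ) (Set.uIcc φ 0) := by
        intro x _
        fun_prop
      have := hA.meromorphicOn.intervalIntegrable_log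
      exact this
  -- left end
  have hleft : Tendsto (UU g) (𝓝[>] φ) (𝓝 (UU g φ)) :=
    (hsub φ hφ).continuousAt.tendsto.mono_left nhdsWithin_le_nhds
  -- right end
  have hright : Tendsto (UU g) (𝓝[<] 0) (𝓝 0) := by
    have hHt : Tendsto (H m₀) (𝓝[<] 0) (𝓝 (H m₀ 0)) := by
      have := hc 0 ⟨by linarith, le_refl 0⟩
      exact this.mono_left (nhdsWithin_le_of_mem (Icc_mem_nhdsLT (by linarith)))
    have hgt : Tendsto g (𝓝[<] 0) (𝓝 (SS (H m₀ 0))) :=
      ((ss_diff r1 r2).continuousAt.tendsto).comp hHt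
    have hzt : Tendsto (fun ψ : ℝ => Complex.exp (ψ * Complex.I)) (𝓝[<] 0) (𝓝 1) := by
      have : ContinuousAt (fun ψ : ℝ => Complex.exp (ψ * Complex.I)) 0 := by fun_prop
      have h4 := this.tendsto.mono_left (nhdsWithin_le_nhds (s := Set.Iio 0))
      simpa using h4
    have hw1 : Tendsto (fun ψ : ℝ => Complex.exp (ψ * Complex.I) * g ψ) (𝓝[<] 0)
        (𝓝 (SS (H m₀ 0))) := by
      have := hzt.mul hgt
      rwa [one_mul] at this
    have hw2 : Tendsto (fun ψ : ℝ => (starRingEnd ℂ) (Complex.exp (ψ * Complex.I) / g ψ)) (𝓝[<] 0)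
        (𝓝 (SS (H m₀ 0))) := by
      have h4 := hzt.div hgt (ss_ne _)
      have h5 := (Complex.continuous_conj.tendsto _).comp h4
      have e : (starRingEnd ℂ) (1 / SS (H m₀ 0)) = SS (H m₀ 0) := by
        rw [one_div, Complex.inv_def, Complex.normSq_eq_norm_sq, r3]
        simp
      rw [e] at h5
      exact h5
    have hdiff := bw_sub_tendsto h2 (ss_ne _) r4 hw1 hw2
    have hbz : Tendsto (fun ψ : ℝ => BW (Complex.exp (ψ * Complex.I))) (𝓝[<] 0) (𝓝 0) := h3.2
    have htot := (hbz.const_mul 2).sub hdiff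
    simp only [mul_zero, sub_zero] at htot
    apply htot.congr'
    have hnear : Set.Ioo (-(Real.pi / 2)) (0 : ℝ) ∈ 𝓝[<] (0 : ℝ) := Ioo_mem_nhdsLT (by linarith)
    filter_upwards [hnear] with ψ hψ
    obtain ⟨q1, q2, q3, q4, q5, q6⟩ := point_facts h0 hp hF hm hψ
    have h4 := h3.1 _ q5
    unfold UU
    simp only [g]
    rw [h4]
    ring
  have hfin := intervalIntegral.integral_eq_sub_of_hasDerivAt_of_tendsto hφ.2
    (fun x hx => hsub x ⟨lt_trans hφ.1 hx.1, hx.2⟩) hint hleft hright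
  rw [hfin]
  have hss : SS (H m₀ φ) = s := by
    rw [hH, ss_eq α b hα hα', hs]
  unfold UU
  simp only [g]
  rw [hss, ← hz]
  ring

end Pool.Agent.Q58.VC
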